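import Mathlib
import Pool.Agent.H33.Contin

set_option autoImplicit false

namespace Pool.Agent.Results.MP_53bf97_gt.Semi

open Set Topology Metric Filter TopologicalSpace Pool.Agent.H33.Contin

/-- the hyperspace `C(X)` of subcontinua with the Hausdorff metric -/
abbrev CX (X : Type) [MetricSpace X] := {K : NonemptyCompacts X // IsConnected (K : Set X)}

/-- collapse `C(p,X)` to a point -/
def rel {X : Type} [MetricSpace X] (p : X) : Setoid (CX X) where
  r A B := A = B ∨ (p ∈ (A.1 : Set X) ∧ p ∈ (B.1 : Set X))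
  iseqv := ⟨fun _ => Or.inl rfl, fun h => h.imp Eq.symm And.symm, by
    rintro A B C (rfl | h) (rfl | k)
    exacts [Or.inl rfl, Or.inr k, Or.inr h, Or.inr ⟨h.1, k.2⟩]⟩

/-- `HS(p,X) = C(X)/C(p,X)` with the quotient topology -/
abbrev HS {X : Type} [MetricSpace X] (p : X) := Quotient (rel p)

/-- aposyndetic at `x` with respect to `y` -/
def Apo {Y : Type} [TopologicalSpace Y] (x y : Y) : Prop :=
  ∃ M : Set Y, IsCompact M ∧ IsConnected M ∧ x ∈ interior M ∧ y ∉ M

section
variable {X : Type} [MetricSpace X] {p : X}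

lemma sat {U : Set (CX X)} (h : (∀ A : CX X, p ∈ (A.1 : Set X) → A ∈ U) ∨
    ∀ A ∈ U, p ∉ (A.1 : Set X)) :
    Quotient.mk (rel p) ⁻¹' (Quotient.mk (rel p) '' U) = U := by
  refine Subset.antisymm ?_ (subset_preimage_image _ _)
  rintro A ⟨B, hB, e⟩
  rcases Quotient.exact e with rfl | ⟨h1, h2⟩
  · exact hB
  · rcases h with h | h
    · exact h A h2
    · exact (h B hB h1).elim

lemma sat_open {U : Set (CX X)} (hU : IsOpen U) (h : (∀ A : CX X, p ∈ (A.1 : Set X) → A ∈ U) ∨
    ∀ A ∈ U, p ∉ (A.1 : Set X)) : IsOpen (Quotient.mk (rel p) '' U) := by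
  rw [← isQuotientMap_quotient_mk'.isOpen_preimage]
  exact (sat h).symm ▸ hU

variable [CompactSpace X] [ConnectedSpace X]

def top : NonemptyCompacts X := ⟨⟨univ, isCompact_univ⟩, univ_nonempty⟩

lemma ge_closed (L : NonemptyCompacts X) : IsClosed {K : NonemptyCompacts X | L ≤ K} := by
  have : {K : NonemptyCompacts X | L ≤ K} =
      ⋂ z ∈ (L : Set X), {K : NonemptyCompacts X | ((K : Set X) ∩ {z}).Nonempty} := by
    ext K
    simp only [mem_ofPred_eq, mem_iInter, inter_singleton_nonempty]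
    rfl
  rw [this]
  exact isClosed_biInter fun z _ =>
    NonemptyCompacts.isClosed_inter_nonempty_of_isClosed isClosed_singleton

lemma up_conn (D : NonemptyCompacts X) :
    IsPreconnected ({K : NonemptyCompacts X | IsPreconnected (K : Set X)} ∩ {K | D ≤ K}) := by
  obtain ⟨ν, hν, hνs⟩ := whitney (X := X)
  set S := {K : NonemptyCompacts X | IsPreconnected (K : Set X)} ∩ {K | D ≤ K}
  have hS : IsClosed S := closed_conn.inter (ge_closed D)
  have key : ∀ s t : Set (NonemptyCompacts X), IsClosed s → IsClosed t → S ⊆ s ∪ t →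
      (S ∩ s).Nonempty → top ∈ t → (S ∩ (s ∩ t)).Nonempty := by
    intro s t hs ht hc hn hT
    obtain ⟨E, hE, hEm⟩ := (hS.inter hs).isCompact.exists_isMinOn hn hν.continuousOn
    obtain ⟨F, hF, hFm⟩ := ((hS.inter ht).inter (ge_closed E)).isCompact.exists_isMaxOn
      ⟨top, ⟨⟨isPreconnected_univ, subset_univ _⟩, hT⟩, subset_univ _⟩ hν.continuousOn
    rcases eq_or_lt_of_le (show E ≤ F from hF.2) with rfl | hlt
    · exact ⟨E, hE.1, hE.2, hF.1.2⟩
    obtain ⟨C, hC, hCc, h1, h2⟩ := bump E.isCompact.isClosed ⟨E.nonempty, hE.1.1⟩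
      F.isCompact.isClosed hF.1.1.1 hlt
    set C' : NonemptyCompacts X := ⟨⟨C, hC.isCompact⟩, hCc.nonempty⟩
    have e1 : E < C' := h1
    have e2 : C' < F := h2
    have hCS : C' ∈ S := ⟨hCc.2, le_trans hE.1.2 e1.le⟩
    rcases hc hCS with h | h
    · exact absurd (hνs e1) (not_lt.2 (hEm ⟨hCS, h⟩))
    · exact absurd (hνs e2) (not_lt.2 (hFm ⟨⟨hCS, h⟩, e1.le⟩))
  rw [isPreconnected_closed_iff]
  intro s t hs ht hc h1 h2
  rcases hc (show top ∈ S from ⟨isPreconnected_univ, subset_univ _⟩) with h | h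
  · rw [inter_comm s]; exact key t s ht hs (by rwa [union_comm]) h2 h
  · exact key s t hs ht hc h1 h

lemma apo_of (A B : CX X) {x : X} (hx : x ∈ (A.1 : Set X)) (hxB : x ∉ (B.1 : Set X))
    (hp : p ∉ (B.1 : Set X)) : Apo (Quotient.mk (rel p) A) (Quotient.mk (rel p) B) := by
  obtain ⟨O, hO, h1, h2⟩ := normal_exists_closure_subset (s := {x, p})
    (toFinite _).isClosed B.1.isCompact.isClosed.isOpen_compl (by rintro _ (rfl | rfl) <;> assumption)
  set M : Set (CX X) := {D | ((D.1 : Set X) ∩ closure O).Nonempty}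
  have hv : Subtype.val '' M = {K : NonemptyCompacts X | IsPreconnected (K : Set X)} ∩
      {K | ((K : Set X) ∩ closure O).Nonempty} := by
    ext K
    constructor
    · rintro ⟨D, hD, rfl⟩; exact ⟨D.2.2, hD⟩
    · rintro ⟨a, b⟩; exact ⟨⟨K, K.nonempty, a⟩, b, rfl⟩
  have hc : IsCompact M := by
    rw [Subtype.isCompact_iff, hv]
    exact (closed_conn.inter
      (NonemptyCompacts.isClosed_inter_nonempty_of_isClosed isClosed_closure)).isCompact
  have hA : A ∈ M := ⟨x, hx, subset_closure (h1 (Or.inl rfl))⟩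
  have hM : IsPreconnected M := by
    have hi : IsInducing (Subtype.val : CX X → NonemptyCompacts X) := ⟨rfl⟩
    rw [← hi.isPreconnected_image, hv]
    refine isPreconnected_of_forall top fun K hK => ⟨_, ?_, ?_, ?_, up_conn K⟩
    rotate_left
    · exact ⟨isPreconnected_univ, subset_univ _⟩
    · exact ⟨hK.1, le_refl K⟩
    rintro L ⟨a, b⟩
    exact ⟨a, hK.2.mono (inter_subset_inter_left _ b)⟩
  refine ⟨_ '' M, hc.image continuous_quotient_mk',
    IsConnected.image ⟨⟨A, hA⟩, hM⟩ _ continuous_quotient_mk'.continuousOn, ?_, ?_⟩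
  · have hU : IsOpen {D : CX X | ((D.1 : Set X) ∩ O).Nonempty} :=
      (NonemptyCompacts.isOpen_inter_nonempty_of_isOpen hO).preimage continuous_subtype_val
    refine interior_maximal (image_mono fun D hD => hD.mono (inter_subset_inter_right _
      subset_closure)) (sat_open hU (Or.inl fun D hD => ⟨p, hD, h1 (Or.inr rfl)⟩)) ?_
    exact ⟨A, ⟨x, hx, h1 (Or.inl rfl)⟩, rfl⟩
  · intro h
    have : B ∈ M := (sat (U := M) (Or.inl fun D hD => ⟨p, hD, subset_closure (h1 (Or.inr rfl))⟩)).subset h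
    obtain ⟨z, a, b⟩ := this
    exact h2 b a

lemma semi (a b : HS p) (h : a ≠ b) : Apo a b ∨ Apo b a := by
  induction a using Quotient.inductionOn with | _ A => ?_
  induction b using Quotient.inductionOn with | _ B => ?_
  by_cases hA : p ∈ (A.1 : Set X) <;> by_cases hB : p ∈ (B.1 : Set X)
  · exact (h (Quotient.sound (Or.inr ⟨hA, hB⟩))).elim
  · exact Or.inl (apo_of A B hA hB hB)
  · exact Or.inr (apo_of B A hB hA hA)
  · by_cases h1 : (A.1 : Set X) ⊆ B.1
    · by_cases h2 : (B.1 : Set X) ⊆ A.1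
      · exact (h (by rw [Subtype.ext (NonemptyCompacts.ext (h1.antisymm h2))])).elim
      · obtain ⟨x, a, b⟩ := not_subset.1 h2
        exact Or.inr (apo_of B A a b hA)
    · obtain ⟨x, a, b⟩ := not_subset.1 h1
      exact Or.inl (apo_of A B a b hB)

end

/-- slopes of the harmonic fan -/
def sl : Set ℝ := insert 0 (range fun n : ℕ => 1 / ((n : ℝ) + 1))

def fan : Set (ℝ × ℝ) := (fun q : ℝ × ℝ => (q.1, q.1 * q.2)) '' (Icc 0 1 ×ˢ sl)

lemma fan_compact : IsCompact fan :=
  (isCompact_Icc.prod tendsto_one_div_add_atTop_nhds_zero_nat.isCompact_insert_range).image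
    (by fun_prop)

lemma mem_fan {t s : ℝ} (ht : t ∈ Icc (0 : ℝ) 1) (hs : s ∈ sl) : (t, t * s) ∈ fan :=
  ⟨(t, s), ⟨ht, hs⟩, rfl⟩

lemma fan_conn : IsConnected fan := by
  refine ⟨⟨_, mem_fan (t := 0) (by simp) (Or.inl rfl)⟩, isPreconnected_of_forall (0, 0) ?_⟩
  rintro _ ⟨⟨t, s⟩, ⟨ht, hs⟩, rfl⟩
  refine ⟨(fun u : ℝ => (u, u * s)) '' Icc 0 1, ?_, ⟨0, by simp, by simp⟩, ⟨t, ht, rfl⟩,
    isPreconnected_Icc.image _ (by fun_prop)⟩
  rintro _ ⟨u, hu, rfl⟩
  exact mem_fan hu hs

def pt (s : ℝ) (hs : s ∈ sl) : fan := ⟨(1, 1 * s), mem_fan (by simp) hs⟩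
def o : fan := ⟨(0, 0 * 0), mem_fan (by simp) (Or.inl rfl)⟩
def sg (x : fan) : CX fan := ⟨{x}, isConnected_singleton⟩

lemma sg_cont : Continuous sg := NonemptyCompacts.isometry_singleton.continuous.subtype_mk _

lemma notApo : ¬ Apo (Quotient.mk (rel o) (sg (pt 0 (Or.inl rfl)))) (Quotient.mk (rel o) (sg o)) := by
  rintro ⟨M, -, hM, h1, h2⟩
  have ht : Tendsto (fun n : ℕ => Quotient.mk (rel o) (sg (pt (1 / ((n : ℝ) + 1)) (Or.inr ⟨n, rfl⟩))))
      atTop (𝓝 (Quotient.mk (rel o) (sg (pt 0 (Or.inl rfl))))) := by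
    refine ((continuous_quotient_mk'.comp sg_cont).tendsto _).comp ?_
    rw [tendsto_subtype_rng]
    exact tendsto_const_nhds.prodMk_nhds (tendsto_one_div_add_atTop_nhds_zero_nat.const_mul 1)
  obtain ⟨n, hn⟩ := (ht.eventually (mem_interior_iff_mem_nhds.1 h1)).exists
  set c : ℝ := 1 / ((n : ℝ) + 3 / 2) with hc
  have hn0 : (0 : ℝ) ≤ n := n.cast_nonneg
  set u : Set fan := {z | z.1.2 < c * z.1.1}
  set v : Set fan := {z | c * z.1.1 < z.1.2}
  have hu : IsOpen u := isOpen_lt (by fun_prop) (by fun_prop)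
  have hv : IsOpen v := isOpen_lt (by fun_prop) (by fun_prop)
  have huv : Disjoint u v := disjoint_left.2 fun z a b =>
    lt_asymm (show z.1.2 < c * z.1.1 from a) b
  have cov : ∀ z : fan, z ≠ o → z ∈ u ∪ v := by
    rintro ⟨_, ⟨t, s⟩, ⟨ht, hs⟩, rfl⟩ hz
    have t0 : 0 < t := lt_of_le_of_ne ht.1 (by rintro rfl; exact hz (by simp [o]))
    have : s ≠ c := by
      rcases id hs with k | ⟨m, k⟩
      · rw [show s = 0 from k]; exact (show 0 < c by positivity).ne
      · intro h
        rw [show s = _ from k.symm] at h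
        simp only [hc, one_div, inv_inj] at h
        have h3 : ((2 * m : ℕ) : ℝ) = (2 * n + 1 : ℕ) := by push_cast; linarith
        have := Nat.cast_injective h3
        omega
    rcases this.lt_or_gt with h | h
    · left; show t * s < c * t; nlinarith
    · right; show c * t < t * s; nlinarith
  have op : ∀ w : Set fan, IsOpen w → o ∉ w →
      IsOpen (Quotient.mk (rel o) '' {A : CX fan | (A.1 : Set fan) ⊆ w}) := fun w hw ho =>
    sat_open ((NonemptyCompacts.isOpen_subsets_of_isOpen hw).preimage continuous_subtype_val)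
      (Or.inr fun A hA h => ho (hA h))
  have ou : o ∉ u := by simp [u, o]
  have ov : o ∉ v := by simp [v, o]
  obtain ⟨z, -, ⟨A, hA, rfl⟩, hz⟩ := hM.2 _ _ (op u hu ou) (op v hv ov) (by
      intro z hz
      induction z using Quotient.inductionOn with | _ A => ?_
      have : o ∉ (A.1 : Set fan) := fun h => h2 (by
        rwa [← Quotient.sound (s := rel o) (a := A) (b := sg o) (Or.inr ⟨h, rfl⟩)])
      rcases A.2.2.subset_or_subset hu hv huv fun z hz => cov z (by rintro rfl; exact this hz)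
        with h | h
      · exact Or.inl ⟨A, h, rfl⟩
      · exact Or.inr ⟨A, h, rfl⟩)
    ⟨_, interior_subset h1, _, (by
      rintro _ rfl
      show (1 : ℝ) * 0 < c * 1
      rw [mul_zero]; positivity), rfl⟩
    ⟨_, hn, _, (by
      rintro _ rfl
      show c * 1 < 1 * (1 / ((n : ℝ) + 1))
      rw [mul_one, one_mul]
      exact one_div_lt_one_div_of_lt (by positivity) (by linarith)), rfl⟩
  have hB : (A.1 : Set fan) ⊆ v :=
    (sat (U := {A : CX fan | (A.1 : Set fan) ⊆ v}) (Or.inr fun A hA h => ov (hA h))).subset hz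
  obtain ⟨x, hx⟩ := A.1.nonempty
  exact disjoint_left.1 huv (hA hx) (hB hx)

theorem result :
    ∀ (X : Type) [MetricSpace X] [CompactSpace X] [ConnectedSpace X] [Nontrivial X] (p : X)
      (a b : HS p), a ≠ b → Apo a b ∨ Apo b a :=
  fun X _ _ _ _ p a b => semi a b

end Pool.Agent.Results.MP_53bf97_gt.Semi
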